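import Pool.Agent.H41.CL.Defs2

set_option autoImplicit false

namespace Pool.Agent.H163.CL

open Finset Pool.Agent.H41.CL

section

variable {k : ℕ}

lemma mate_mate (τ : Q k ≃ P k) (p : P k) : mate τ (mate τ p) = p := by
  unfold mate
  simp

lemma mate_ne (τ : Q k ≃ P k) (p : P k) : mate τ p ≠ p := by
  unfold mate
  intro h
  have h2 : ((τ.symm p).1, !(τ.symm p).2) = τ.symm p := by
    rw [Equiv.eq_symm_apply]; exact h
  have h3 := congrArg Prod.snd h2
  simp at h3

lemma mate_trans (τ : Q k ≃ P k) (a b x : P k) :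
    mate (τ.trans (Equiv.swap a b)) x = Equiv.swap a b (mate τ (Equiv.swap a b x)) := by
  unfold mate
  simp [Equiv.symm_swap]

/-- The points over a set of vertices. -/
lemma card_over (W : Finset (Fin (2 * k))) :
    (univ.filter (fun x : P k => x.1 ∈ W)).card = 3 * W.card := by
  have : (univ.filter (fun x : P k => x.1 ∈ W)) = W ×ˢ (univ : Finset (Fin 3)) := by
    ext x; simp
  rw [this, card_product]
  simp [mul_comm]

lemma card_over_mate (τ : Q k ≃ P k) (W : Finset (Fin (2 * k))) :
    (univ.filter (fun x : P k => (mate τ x).1 ∈ W)).card = 3 * W.card := by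
  rw [← card_over W]
  apply Finset.card_bij' (fun x _ => mate τ x) (fun x _ => mate τ x)
  · intro a ha; simpa using ha
  · intro a ha; simpa [mate_mate] using ha
  · intro a _; exact mate_mate τ a
  · intro a _; exact mate_mate τ a

lemma card_loops (τ : Q k ≃ P k) :
    (univ.filter (fun x : P k => (mate τ x).1 = x.1)).card ≤ bad τ := by
  unfold bad
  apply Finset.card_le_card_of_injOn (fun x => (x, mate τ x))
  · intro x hx
    simp only [coe_filter, mem_univ, true_and, Set.mem_setOf_eq] at hx ⊢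
    refine ⟨(mate_ne τ x).symm, hx.symm, ?_⟩
    rw [mate_mate]; exact hx
  · intro x _ y _ h
    exact congrArg Prod.fst h

end

theorem t_SWI : S_SWI := by
  intro C0
  refine ⟨C0 + 49, ?_⟩
  intro k hk τ h1 h2
  -- a bad pair
  obtain ⟨⟨p, p'⟩, hpp⟩ : (univ.filter (fun x : P k × P k => x.1 ≠ x.2 ∧ x.1.1 = x.2.1 ∧
    (mate τ x.1).1 = (mate τ x.2).1)).Nonempty := Finset.card_pos.mp h1
  have hpp0 := hpp
  simp only [mem_filter, mem_univ, true_and] at hpp
  obtain ⟨hne, hv, hm⟩ := hpp
  set m := mate τ with hmdef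
  have mm : ∀ x, m (m x) = x := mate_mate τ
  have mne : ∀ x, m x ≠ x := mate_ne τ
  set U : Finset (Fin (2 * k)) := {p.1, (m p).1} with hU
  set W : Finset (Fin (2 * k)) :=
    U ∪ (univ.filter (fun x : P k => x.1 ∈ U)).image (fun x => (m x).1) with hW
  have hUc : U.card ≤ 2 := Finset.card_le_two
  have hWc : W.card ≤ 8 := by
    calc W.card ≤ U.card + ((univ.filter (fun x : P k => x.1 ∈ U)).image (fun x => (m x).1)).card :=
          Finset.card_union_le _ _
      _ ≤ U.card + (univ.filter (fun x : P k => x.1 ∈ U)).card := by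
          gcongr; exact Finset.card_image_le
      _ = U.card + 3 * U.card := by rw [card_over]
      _ ≤ 8 := by omega
  have hWm : ∀ x : P k, x.1 ∈ U → (m x).1 ∈ W := by
    intro x hx
    exact Finset.mem_union_right _ (Finset.mem_image.mpr ⟨x, by simpa using hx, rfl⟩)
  have huW : ∀ v ∈ U, v ∈ W := fun v hv => Finset.mem_union_left _ hv
  -- a good point r
  obtain ⟨r, hr⟩ : ∃ r : P k, r.1 ∉ W ∧ (m r).1 ∉ W ∧ (m r).1 ≠ r.1 := by
    by_contra hcon
    push Not at hcon
    have hsub : (univ : Finset (P k)) ⊆ (univ.filter (fun x : P k => x.1 ∈ W)) ∪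
        (univ.filter (fun x : P k => (m x).1 ∈ W)) ∪
        (univ.filter (fun x : P k => (m x).1 = x.1)) := by
      intro x _
      by_cases ha : x.1 ∈ W
      · simp [ha]
      by_cases hb : (m x).1 ∈ W
      · simp [hb]
      · have := hcon x ha hb
        simp [this]
    have hc := Finset.card_le_card hsub
    have e1 := card_over W
    have e2 := card_over_mate τ W
    have e3 := card_loops τ
    have hu : (univ : Finset (P k)).card = 6 * k := by
      simp [P, Fintype.card_prod]; ring
    have h4 := Finset.card_union_le ((univ.filter (fun x : P k => x.1 ∈ W)) ∪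
        (univ.filter (fun x : P k => (m x).1 ∈ W))) (univ.filter (fun x : P k => (m x).1 = x.1))
    have h5 := Finset.card_union_le (univ.filter (fun x : P k => x.1 ∈ W))
        (univ.filter (fun x : P k => (m x).1 ∈ W))
    rw [← hmdef] at e2 e3
    omega
  obtain ⟨hr1, hr2, hr3⟩ := hr
  have hpU : p.1 ∈ U := by simp [hU]
  have hmU : (m p).1 ∈ U := by simp [hU]
  have hpW := huW _ hpU
  have hmW := huW _ hmU
  have d1 : r ≠ p := by rintro rfl; exact hr1 hpW
  have d2 : r ≠ m p := by rintro h; rw [h] at hr1; exact hr1 hmW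
  have d3 : m r ≠ p := by rintro h; rw [h] at hr2; exact hr2 hpW
  have d4 : m r ≠ m p := by
    intro h; apply d1; have := congrArg m h; rwa [mm, mm] at this
  refine ⟨m p, m r, ?_⟩
  set s := Equiv.swap (m p) (m r) with hs
  set τ' := τ.trans s with hτ'
  have hm' : ∀ x, mate τ' x = s (m (s x)) := fun x => mate_trans τ (m p) (m r) x
  have sp : s p = p := Equiv.swap_apply_of_ne_of_ne (mne p).symm (Ne.symm d3)
  have sr : s r = r := Equiv.swap_apply_of_ne_of_ne d2 (mne r).symm
  have smp : s (m p) = m r := Equiv.swap_apply_left _ _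
  have smr : s (m r) = m p := Equiv.swap_apply_right _ _
  have Ep : mate τ' p = m r := by rw [hm', sp, smp]
  have Er : mate τ' r = m p := by rw [hm', sr, smr]
  have Emp : mate τ' (m p) = r := by rw [hm', smp, mm, sr]
  have Emr : mate τ' (m r) = p := by rw [hm', smr, mm, sp]
  have Eo : ∀ x, x ≠ p → x ≠ r → x ≠ m p → x ≠ m r → mate τ' x = m x := by
    intro x h1 h2 h3 h4
    rw [hm']
    have e1 : s x = x := Equiv.swap_apply_of_ne_of_ne h3 h4
    rw [e1]
    apply Equiv.swap_apply_of_ne_of_ne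
    · intro h; apply h1; have := congrArg m h; rwa [mm, mm] at this
    · intro h; apply h2; have := congrArg m h; rwa [mm, mm] at this
  -- key: no bad pair for τ' touches D
  have key : ∀ x y : P k, x ≠ y → x.1 = y.1 → (mate τ' x).1 = (mate τ' y).1 →
      x ≠ p ∧ x ≠ r ∧ x ≠ m p ∧ x ≠ m r := by
    intro x y hxy hv' hb
    have back : ∀ y : P k, (m y).1 ∈ U → y.1 ∈ W := by
      intro y hy
      have := hWm (m y) hy
      rwa [mm] at this
    by_cases yp : y = p
    · subst yp
      rw [Ep] at hb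
      refine ⟨hxy, ?_, ?_, ?_⟩
      · rintro rfl; exact hr1 (hv' ▸ hpW)
      · rintro rfl; rw [Emp] at hb; exact hr3 hb.symm
      · rintro rfl; exact hr2 (hv' ▸ hpW)
    by_cases yr : y = r
    · subst yr
      rw [Er] at hb
      refine ⟨?_, hxy, ?_, ?_⟩
      · rintro rfl; exact hr1 (hv' ▸ hpW)
      · rintro rfl; exact hr1 (hv' ▸ hmW)
      · rintro rfl; exact hr3 hv'
    by_cases ymp : y = m p
    · subst ymp
      rw [Emp] at hb
      refine ⟨?_, ?_, hxy, ?_⟩
      · rintro rfl; rw [Ep] at hb; exact hr3 hb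
      · rintro rfl; exact hr1 (hv' ▸ hmW)
      · rintro rfl; exact hr2 (hv' ▸ hmW)
    by_cases ymr : y = m r
    · subst ymr
      rw [Emr] at hb
      refine ⟨?_, ?_, ?_, hxy⟩
      · rintro rfl; exact hr2 (hv' ▸ hpW)
      · rintro rfl; exact hr3 hv'.symm
      · rintro rfl; exact hr2 (hv' ▸ hmW)
    rw [Eo y yp yr ymp ymr] at hb
    refine ⟨?_, ?_, ?_, ?_⟩
    · rintro rfl
      rw [Ep] at hb
      exact hr2 (hb ▸ hWm y (hv' ▸ hpU))
    · rintro rfl
      rw [Er] at hb
      exact hr1 (hv' ▸ back y (hb ▸ hmU))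
    · rintro rfl
      rw [Emp] at hb
      exact hr1 (hb ▸ hWm y (hv' ▸ hmU))
    · rintro rfl
      rw [Emr] at hb
      exact hr2 (hv' ▸ back y (hb ▸ hpU))
  unfold bad
  apply Finset.card_lt_card
  rw [Finset.ssubset_iff_of_subset]
  · refine ⟨(p, p'), hpp0, ?_⟩
    simp only [mem_filter, mem_univ, true_and, not_and]
    intro _ _ hb
    exact (key p p' hne hv hb).1 rfl
  · intro ⟨x, y⟩ hx
    simp only [mem_filter, mem_univ, true_and] at hx ⊢
    obtain ⟨h1, h2, h3⟩ := hx
    refine ⟨h1, h2, ?_⟩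
    obtain ⟨a1, a2, a3, a4⟩ := key x y h1 h2 h3
    obtain ⟨b1, b2, b3, b4⟩ := key y x h1.symm h2.symm h3.symm
    rwa [Eo x a1 a2 a3 a4, Eo y b1 b2 b3 b4] at h3

end Pool.Agent.H163.CL
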